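import Mathlib

/-!
# The weak Shanks conjecture on the bidisk is false

The polynomial `f = (3 - z₁ - z₁ z₂)⁵` has no zeros on the closed bidisk (`|z₁ + z₁ z₂| ≤ 2 < 3`).
Its optimal polynomial approximant `q₂` in `H²(𝔻²)`, taken over the span of the first three monomials
`1, z₁, z₂` of the degree-lexicographic ordering (that is, over all polynomials of total degree at most
one), is a positive multiple of `937168843401 + 566747761005 z₁ - 404242569135 z₂`, and
`566747761005 + 404242569135 > 937168843401`, so `q₂` vanishes at a point `(-t, t)` of the open bidisk.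
-/

open MvPolynomial

namespace Pool.Agent.Results.MP_52e642_an.WeakShanksFails

/-- The squared norm in the Hardy space `H²(𝔻²)` of the polynomial `p = ∑ a_{j,k} z₁^j z₂^k`, that is
`∑ |a_{j,k}|²` (`z₁`, `z₂` are the variables with the indices `0`, `1`). -/
noncomputable def hardyNormSq (p : MvPolynomial (Fin 2) ℂ) : ℝ :=
  ∑ m ∈ p.support, ‖p.coeff m‖ ^ 2

/-- The position (counted from `0`) of the monomial `z₁^j z₂^k`, `j = m 0`, `k = m 1`, in the
degree-lexicographic ordering `1, z₁, z₂, z₁², z₁ z₂, z₂², z₁³, …`: the number of the monomials of total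
degree less than `d = j + k` is `d (d + 1) / 2`, and `z₁^j z₂^k` is preceded by `k` monomials of total
degree `d`. -/
def degLexIndex (m : Fin 2 →₀ ℕ) : ℕ := (m 0 + m 1) * (m 0 + m 1 + 1) / 2 + m 1

/-- `𝒫ₙ`: the linear span of the first `n + 1` monomials in the degree-lexicographic ordering. -/
def P (n : ℕ) : Set (MvPolynomial (Fin 2) ℂ) :=
  {p | ∀ m ∈ p.support, degLexIndex m ≤ n}

/-- `q` is the `n`-th optimal polynomial approximant of `1 / f` in `H²(𝔻²)`: it is the unique element of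
`𝒫ₙ` that minimises `‖p f - 1‖` over all `p ∈ 𝒫ₙ`. -/
def IsOptimalApproximant (f : MvPolynomial (Fin 2) ℂ) (n : ℕ) (q : MvPolynomial (Fin 2) ℂ) : Prop :=
  q ∈ P n ∧ ∀ p ∈ P n, p ≠ q → hardyNormSq (q * f - 1) < hardyNormSq (p * f - 1)

/-! ### The ordering -/

/-- sanity check: `degLexIndex` compares first the total degrees, and for equal total degrees it
orders by decreasing power of `z₁`. -/
theorem degLexIndex_lt_iff (a b : Fin 2 →₀ ℕ) :
    degLexIndex a < degLexIndex b ↔
      (a 0 + a 1 < b 0 + b 1 ∨ (a 0 + a 1 = b 0 + b 1 ∧ b 0 < a 0)) := by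
  have key : ∀ d e : ℕ, d < e → d * (d + 1) / 2 + d < e * (e + 1) / 2 := by
    intro d e h
    have h1 : (d + 1) * (d + 1 + 1) / 2 = d * (d + 1) / 2 + (d + 1) := by
      have : (d + 1) * (d + 1 + 1) = d * (d + 1) + (d + 1) * 2 := by ring
      rw [this, Nat.add_mul_div_right _ _ (by norm_num)]
    have h2 : (d + 1) * (d + 1 + 1) / 2 ≤ e * (e + 1) / 2 := by
      apply Nat.div_le_div_right
      gcongr <;> omega
    omega
  unfold degLexIndex
  rcases lt_trichotomy (a 0 + a 1) (b 0 + b 1) with h | h | h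
  · have := key _ _ h
    constructor
    · intro _; left; exact h
    · intro _; omega
  · rw [h]
    constructor
    · intro h1; right; omega
    · intro h1; omega
  · have := key _ _ h
    constructor
    · intro _; omega
    · intro h1; omega

/-! ### Norms of explicit polynomials -/

theorem hardyNormSq_eq_sum (p : MvPolynomial (Fin 2) ℂ) (S : Finset (Fin 2 →₀ ℕ))
    (hS : p.support ⊆ S) : hardyNormSq p = ∑ m ∈ S, ‖p.coeff m‖ ^ 2 := by
  unfold hardyNormSq
  apply Finset.sum_subset hS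
  intro m _ hm
  rw [MvPolynomial.notMem_support_iff] at hm
  simp [hm]

/-- the exponent of `z₁^j z₂^k` -/
noncomputable def ex (jk : ℕ × ℕ) : Fin 2 →₀ ℕ := Finsupp.single 0 jk.1 + Finsupp.single 1 jk.2

theorem ex_zero (jk : ℕ × ℕ) : ex jk 0 = jk.1 := by simp [ex]
theorem ex_one (jk : ℕ × ℕ) : ex jk 1 = jk.2 := by simp [ex]

theorem ex_injective : Function.Injective ex := by
  intro a b h
  have h0 := congrArg (fun m => m 0) h
  have h1 := congrArg (fun m => m 1) h
  simp only [ex_zero, ex_one] at h0 h1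
  exact Prod.ext h0 h1

theorem hardyNormSq_sum (s : Finset (ℕ × ℕ)) (c : ℕ × ℕ → ℂ) :
    hardyNormSq (∑ jk ∈ s, monomial (ex jk) (c jk)) = ∑ jk ∈ s, ‖c jk‖ ^ 2 := by
  have hco : ∀ jk ∈ s, (∑ ab ∈ s, monomial (ex ab) (c ab)).coeff (ex jk) = c jk := by
    intro jk hjk
    rw [coeff_sum, Finset.sum_eq_single jk]
    · simp
    · intro b _ hb
      rw [coeff_monomial, if_neg]
      exact fun h => hb (ex_injective h)
    · intro h; exact absurd hjk h
  rw [hardyNormSq_eq_sum _ (s.image ex)]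
  · rw [Finset.sum_image (fun a _ b _ h => ex_injective h)]
    apply Finset.sum_congr rfl
    intro jk hjk
    rw [hco jk hjk]
  · intro m hm
    rw [MvPolynomial.mem_support_iff, coeff_sum] at hm
    obtain ⟨jk, hjk, h⟩ := Finset.exists_ne_zero_of_sum_ne_zero hm
    rw [coeff_monomial] at h
    split_ifs at h with h1
    · rw [← h1]; exact Finset.mem_image_of_mem _ hjk
    · exact absurd rfl h

theorem monomial_ex (jk : ℕ × ℕ) (c : ℂ) :
    (monomial (ex jk) c : MvPolynomial (Fin 2) ℂ) = C c * X 0 ^ jk.1 * X 1 ^ jk.2 := by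
  rw [ex, ← mul_one c, ← MvPolynomial.monomial_mul, C_mul_X_pow_eq_monomial, X_pow_eq_monomial]
  simp

/-- the polynomial of the counterexample -/
noncomputable def f : MvPolynomial (Fin 2) ℂ := (3 - X 0 - X 0 * X 1) ^ 5

/-- coefficients of `f`: row `j`, column `k` -/
def F : ℕ → ℕ → ℤ
  | 0, 0 => 243
  | 1, 0 => -405 | 1, 1 => -405
  | 2, 0 => 270 | 2, 1 => 540 | 2, 2 => 270
  | 3, 0 => -90 | 3, 1 => -270 | 3, 2 => -270 | 3, 3 => -90
  | 4, 0 => 15 | 4, 1 => 60 | 4, 2 => 90 | 4, 3 => 60 | 4, 4 => 15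
  | 5, 0 => -1 | 5, 1 => -5 | 5, 2 => -10 | 5, 3 => -10 | 5, 4 => -5 | 5, 5 => -1
  | _, _ => 0

/-- coefficients of `(x + y z₁ + w z₂) f - 1` -/
noncomputable def G (x y w : ℂ) (jk : ℕ × ℕ) : ℂ :=
  x * F jk.1 jk.2 + (if jk.1 = 0 then 0 else y * F (jk.1 - 1) jk.2) +
    (if jk.2 = 0 then 0 else w * F jk.1 (jk.2 - 1)) - (if jk = (0, 0) then 1 else 0)

theorem expand (x y w : ℂ) :
    (C x + C y * X 0 + C w * X 1) * f - 1 =
      ∑ jk ∈ Finset.range 7 ×ˢ Finset.range 7, monomial (ex jk) (G x y w jk) := by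
  simp only [monomial_ex, Finset.sum_product, Finset.sum_range_succ, Finset.sum_range_zero, G, F, f]
  simp only [Prod.mk.injEq, one_ne_zero, OfNat.ofNat_ne_zero, if_false, if_true, and_self, and_false, false_and,
    Nat.reduceSub, map_sub, map_add, map_mul, Int.cast_ofNat, Int.cast_neg, Int.cast_zero, Int.cast_one,
    map_neg, map_one, map_zero, map_ofNat]
  ring

theorem normSq_expand (x y w : ℂ) :
    hardyNormSq ((C x + C y * X 0 + C w * X 1) * f - 1) =
      1002501 * (x.re ^ 2 + y.re ^ 2 + w.re ^ 2) - 1437210 * x.re * y.re + 1179870 * x.re * w.re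
        - 520920 * y.re * w.re - 486 * x.re + 1 +
      (1002501 * (x.im ^ 2 + y.im ^ 2 + w.im ^ 2) - 1437210 * x.im * y.im + 1179870 * x.im * w.im
        - 520920 * y.im * w.im) := by
  rw [expand, hardyNormSq_sum]
  have h : ∀ jk : ℕ × ℕ, ‖G x y w jk‖ ^ 2 =
      (x.re * F jk.1 jk.2 + (if jk.1 = 0 then 0 else y.re * F (jk.1 - 1) jk.2) +
        (if jk.2 = 0 then 0 else w.re * F jk.1 (jk.2 - 1)) - (if jk = (0, 0) then 1 else 0)) ^ 2 +
      (x.im * F jk.1 jk.2 + (if jk.1 = 0 then 0 else y.im * F (jk.1 - 1) jk.2) +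
        (if jk.2 = 0 then 0 else w.im * F jk.1 (jk.2 - 1))) ^ 2 := by
    intro jk
    rw [Complex.sq_norm, Complex.normSq_apply, ← sq, ← sq]
    unfold G
    congr 2
    · split_ifs <;> simp
    · split_ifs <;> simp
  simp only [h, Finset.sum_product, Finset.sum_range_succ, Finset.sum_range_zero, F]
  simp only [Prod.mk.injEq, one_ne_zero, OfNat.ofNat_ne_zero, if_false, if_true, and_self, and_false, false_and,
    Nat.reduceSub, Int.cast_ofNat, Int.cast_neg, Int.cast_zero, Int.cast_one]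
  ring

theorem degLexIndex_le_two (m : Fin 2 →₀ ℕ) (h : degLexIndex m ≤ 2) :
    m = ex (0, 0) ∨ m = ex (1, 0) ∨ m = ex (0, 1) := by
  unfold degLexIndex at h
  have h1 : m 0 + m 1 ≤ 1 := by
    by_contra hc
    have h2 : 2 * (2 + 1) / 2 ≤ (m 0 + m 1) * (m 0 + m 1 + 1) / 2 := by
      apply Nat.div_le_div_right
      gcongr <;> omega
    omega
  have ext2 : ∀ jk : ℕ × ℕ, m 0 = jk.1 → m 1 = jk.2 → m = ex jk := by
    intro jk h0 h1
    ext i
    fin_cases i
    · simpa [ex_zero] using h0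
    · simpa [ex_one] using h1
  have : (m 0 = 0 ∧ m 1 = 0) ∨ (m 0 = 1 ∧ m 1 = 0) ∨ (m 0 = 0 ∧ m 1 = 1) := by omega
  rcases this with h | h | h
  · left; exact ext2 (0, 0) h.1 h.2
  · right; left; exact ext2 (1, 0) h.1 h.2
  · right; right; exact ext2 (0, 1) h.1 h.2

theorem mem_P_two (p : MvPolynomial (Fin 2) ℂ) :
    p ∈ P 2 ↔ ∃ x y w : ℂ, p = C x + C y * X 0 + C w * X 1 := by
  constructor
  · intro hp
    refine ⟨p.coeff (ex (0, 0)), p.coeff (ex (1, 0)), p.coeff (ex (0, 1)), ?_⟩
    have h1 : p = ∑ jk ∈ ({(0, 0), (1, 0), (0, 1)} : Finset (ℕ × ℕ)),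
        monomial (ex jk) (p.coeff (ex jk)) := by
      conv_lhs => rw [p.as_sum]
      rw [← Finset.sum_image (g := ex) (f := fun m => monomial m (p.coeff m))
        (fun a _ b _ h => ex_injective h)]
      apply Finset.sum_subset
      · intro m hm
        rcases degLexIndex_le_two m (hp m hm) with h | h | h <;> simp [h]
      · intro m _ hm
        rw [MvPolynomial.notMem_support_iff] at hm
        simp [hm]
    conv_lhs => rw [h1]
    simp only [monomial_ex]
    simp
    ring
  · rintro ⟨x, y, w, rfl⟩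
    have e : (C x + C y * X 0 + C w * X 1 : MvPolynomial (Fin 2) ℂ) =
        monomial (ex (0, 0)) x + monomial (ex (1, 0)) y + monomial (ex (0, 1)) w := by
      simp only [monomial_ex]; simp
    intro m hm
    rw [e] at hm
    rw [MvPolynomial.mem_support_iff, coeff_add, coeff_add, coeff_monomial, coeff_monomial,
      coeff_monomial] at hm
    have : m = ex (0, 0) ∨ m = ex (1, 0) ∨ m = ex (0, 1) := by
      by_contra hc
      push Not at hc
      rw [if_neg (Ne.symm hc.1), if_neg (Ne.symm hc.2.1), if_neg (Ne.symm hc.2.2)] at hm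
      simp at hm
    rcases this with h | h | h <;> rw [h] <;> simp [degLexIndex, ex_zero, ex_one]

/-- the coefficients of the approximant -/
noncomputable def x₀ : ℝ := 2811506530203 / 3626766516773971
noncomputable def y₀ : ℝ := 1700243283015 / 3626766516773971
noncomputable def w₀ : ℝ := -1212727707405 / 3626766516773971

/-- the optimal polynomial approximant `q₂` of `1 / f` -/
noncomputable def q : MvPolynomial (Fin 2) ℂ := C (x₀ : ℂ) + C (y₀ : ℂ) * X 0 + C (w₀ : ℂ) * X 1

theorem quad_pos (a b c : ℝ) (h : ¬ (a = 0 ∧ b = 0 ∧ c = 0)) :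
    0 < 1002501 * (a ^ 2 + b ^ 2 + c ^ 2) - 1437210 * a * b + 1179870 * a * c - 520920 * b * c := by
  have key : (1002501 * 488615108976 : ℝ) *
      (1002501 * (a ^ 2 + b ^ 2 + c ^ 2) - 1437210 * a * b + 1179870 * a * c - 520920 * b * c) =
      488615108976 * (1002501 * a + (-718605) * b + 589935 * c) ^ 2 + (488615108976 * b + (162818830215) * c) ^ 2 +
        294502801846426238819151 * c ^ 2 := by ring
  by_contra hle
  push Not at hle
  have h1 : 488615108976 * (1002501 * a + (-718605) * b + 589935 * c) ^ 2 + (488615108976 * b + (162818830215) * c) ^ 2 +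
        294502801846426238819151 * c ^ 2 ≤ 0 := by
    rw [← key]
    exact mul_nonpos_of_nonneg_of_nonpos (by norm_num) hle
  have p1 := sq_nonneg (1002501 * a + (-718605) * b + 589935 * c)
  have p2 := sq_nonneg (488615108976 * b + (162818830215) * c)
  have p3 := sq_nonneg c
  have hc : c = 0 := by
    have : c ^ 2 = 0 := by nlinarith
    exact pow_eq_zero_iff (two_ne_zero) |>.mp this
  subst hc
  have hb : b = 0 := by
    have : (488615108976 * b + (162818830215) * 0) ^ 2 = 0 := by nlinarith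
    have := pow_eq_zero_iff (two_ne_zero) |>.mp this
    linarith
  subst hb
  have ha : a = 0 := by
    have : (1002501 * a + (-718605) * 0 + 589935 * 0) ^ 2 = 0 := by nlinarith
    have := pow_eq_zero_iff (two_ne_zero) |>.mp this
    linarith
  exact h ⟨ha, rfl, rfl⟩

theorem quad_nonneg (a b c : ℝ) :
    0 ≤ 1002501 * (a ^ 2 + b ^ 2 + c ^ 2) - 1437210 * a * b + 1179870 * a * c - 520920 * b * c := by
  by_cases h : a = 0 ∧ b = 0 ∧ c = 0
  · obtain ⟨rfl, rfl, rfl⟩ := h; norm_num
  · exact (quad_pos a b c h).le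

theorem q_optimal : IsOptimalApproximant f 2 q := by
  refine ⟨(mem_P_two q).mpr ⟨x₀, y₀, w₀, rfl⟩, ?_⟩
  intro p hp hne
  obtain ⟨x, y, w, rfl⟩ := (mem_P_two p).mp hp
  rw [q, normSq_expand, normSq_expand]
  simp only [Complex.ofReal_re, Complex.ofReal_im]
  have key : 1002501 * (x.re ^ 2 + y.re ^ 2 + w.re ^ 2) - 1437210 * x.re * y.re + 1179870 * x.re * w.re
        - 520920 * y.re * w.re - 486 * x.re + 1 +
      (1002501 * (x.im ^ 2 + y.im ^ 2 + w.im ^ 2) - 1437210 * x.im * y.im + 1179870 * x.im * w.im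
        - 520920 * y.im * w.im) =
      (1002501 * (x₀ ^ 2 + y₀ ^ 2 + w₀ ^ 2) - 1437210 * x₀ * y₀ + 1179870 * x₀ * w₀
        - 520920 * y₀ * w₀ - 486 * x₀ + 1 +
      (1002501 * (0 ^ 2 + 0 ^ 2 + 0 ^ 2) - 1437210 * 0 * 0 + 1179870 * 0 * 0 - 520920 * 0 * 0)) +
      (1002501 * ((x.re - x₀) ^ 2 + (y.re - y₀) ^ 2 + (w.re - w₀) ^ 2) - 1437210 * (x.re - x₀) * (y.re - y₀) +
        1179870 * (x.re - x₀) * (w.re - w₀) - 520920 * (y.re - y₀) * (w.re - w₀)) +
      (1002501 * (x.im ^ 2 + y.im ^ 2 + w.im ^ 2) - 1437210 * x.im * y.im + 1179870 * x.im * w.im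
        - 520920 * y.im * w.im) := by
    unfold x₀ y₀ w₀
    ring
  rw [key]
  have h1 := quad_nonneg (x.re - x₀) (y.re - y₀) (w.re - w₀)
  have h2 := quad_nonneg x.im y.im w.im
  by_cases hr : x.re - x₀ = 0 ∧ y.re - y₀ = 0 ∧ w.re - w₀ = 0
  · have hi : ¬ (x.im = 0 ∧ y.im = 0 ∧ w.im = 0) := by
      intro hi
      apply hne
      have hx : x = (x₀ : ℂ) := Complex.ext (by simpa using sub_eq_zero.mp hr.1) (by simpa using hi.1)
      have hy : y = (y₀ : ℂ) := Complex.ext (by simpa using sub_eq_zero.mp hr.2.1) (by simpa using hi.2.1)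
      have hw : w = (w₀ : ℂ) := Complex.ext (by simpa using sub_eq_zero.mp hr.2.2) (by simpa using hi.2.2)
      rw [hx, hy, hw, q]
    have h3 := quad_pos x.im y.im w.im hi
    linarith
  · have h3 := quad_pos _ _ _ hr
    linarith

theorem f_ne_zero (z : Fin 2 → ℂ) (hz : ∀ i, ‖z i‖ ≤ 1) : eval z f ≠ 0 := by
  unfold f
  simp only [map_pow, map_sub, map_mul, eval_X, map_ofNat]
  apply pow_ne_zero
  intro h
  have h1 : (3 : ℂ) = z 0 + z 0 * z 1 := by linear_combination h
  have h2 : ‖(3 : ℂ)‖ ≤ 1 + 1 * 1 := by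
    rw [h1]
    refine (norm_add_le _ _).trans ?_
    rw [norm_mul]
    have := hz 0
    have := hz 1
    gcongr
  norm_num at h2

/-- **The weak Shanks conjecture is false.** There is a polynomial `f(z₁, z₂)` without zeros on the
closed bidisk whose optimal polynomial approximant `q₂` of `1 / f` in `H²(𝔻²)`, with respect to the
degree-lexicographic ordering, has a zero in the open bidisk. -/
theorem result : ∃ f : MvPolynomial (Fin 2) ℂ,
    (∀ z : Fin 2 → ℂ, (∀ i, ‖z i‖ ≤ 1) → eval z f ≠ 0) ∧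
    ∃ q : MvPolynomial (Fin 2) ℂ, IsOptimalApproximant f 2 q ∧
      ∃ z : Fin 2 → ℂ, (∀ i, ‖z i‖ < 1) ∧ eval z q = 0 := by
  refine ⟨f, f_ne_zero, q, q_optimal,
    ![-(((937168843401 / 970990330140 : ℝ)) : ℂ), ((937168843401 / 970990330140 : ℝ) : ℂ)], ?_, ?_⟩
  · intro i
    fin_cases i
    · simp only [Fin.zero_eta, Matrix.cons_val_zero, norm_neg]
      rw [Complex.norm_real]
      norm_num
    · simp only [Fin.mk_one, Matrix.cons_val_one, Matrix.cons_val_zero]
      rw [Complex.norm_real]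
      norm_num
  · unfold q x₀ y₀ w₀
    simp only [map_add, map_mul, eval_C, eval_X, Matrix.cons_val_zero, Matrix.cons_val_one]
    push_cast
    norm_num

end Pool.Agent.Results.MP_52e642_an.WeakShanksFails
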